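import Pool.Agent.helper43.NO.Defs
import Pool.Agent.helper43.NO.C3
import Pool.Agent.helper86.NO.U2
import Pool.Agent.helper96.NO.F1

/-!
Normal order of `max_{m<n} (τ(m)+m-n)`: the assembly (module NO-F2).
-/

open Finset

namespace Pool.Agent.helper7.NO

open Pool.Agent.helper43.NO Pool.Agent.helper86.NO Pool.Agent.helper96.NO

/-- the eventual inequalities used in the assembly -/
theorem ev_all (b ε δ : ℝ) (hε : 0 < ε) (hδ : 0 < δ) (X₁ X₂ : ℕ) : ∃ X : ℕ, ∀ x : ℕ, X ≤ x →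
    X₁ ≤ x ∧ X₂ ≤ x ∧ 2 ≤ Real.log x ∧ (2 : ℝ) ^ (b + ε) ≤ Real.log x ^ (ε / 2) ∧
    Real.log x ^ (-δ) ≤ 1 / 3 ∧ Real.log x ^ δ ≤ 1 / 6 * (x : ℝ) ^ (1 / 2 : ℝ) := by
  have hlog : Filter.Tendsto (fun x : ℕ => Real.log (x : ℝ)) Filter.atTop Filter.atTop :=
    Real.tendsto_log_atTop.comp tendsto_natCast_atTop_atTop
  have e1 : ∀ᶠ x : ℕ in Filter.atTop, 2 ≤ Real.log (x : ℝ) := hlog.eventually_ge_atTop 2
  have e2 : ∀ᶠ x : ℕ in Filter.atTop, (2 : ℝ) ^ (b + ε) ≤ Real.log (x : ℝ) ^ (ε / 2) :=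
    ((tendsto_rpow_atTop (half_pos hε)).comp hlog).eventually_ge_atTop _
  have e3 : ∀ᶠ x : ℕ in Filter.atTop, Real.log (x : ℝ) ^ (-δ) ≤ 1 / 3 := by
    have h := ((tendsto_rpow_neg_atTop hδ).comp hlog).eventually
      (eventually_le_nhds (show (0 : ℝ) < 1 / 3 by norm_num))
    exact h
  have e4 : ∀ᶠ x : ℕ in Filter.atTop,
      Real.log (x : ℝ) ^ δ ≤ 1 / 6 * (x : ℝ) ^ (1 / 2 : ℝ) := by
    have h := ((isLittleO_log_rpow_rpow_atTop δ (show (0 : ℝ) < 1 / 2 by norm_num)).def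
      (show (0 : ℝ) < 1 / 6 by norm_num))
    have h' := tendsto_natCast_atTop_atTop (R := ℝ) |>.eventually h
    filter_upwards [h', e1] with x hx hx1
    have h0 : 0 ≤ Real.log (x : ℝ) ^ δ := Real.rpow_nonneg (by linarith) _
    have h2 : 0 ≤ (x : ℝ) ^ (1 / 2 : ℝ) := Real.rpow_nonneg (Nat.cast_nonneg _) _
    rw [Real.norm_of_nonneg h0, Real.norm_of_nonneg h2] at hx
    exact hx
  have e5 : ∀ᶠ x : ℕ in Filter.atTop, X₁ ≤ x := Filter.eventually_ge_atTop X₁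
  have e6 : ∀ᶠ x : ℕ in Filter.atTop, X₂ ≤ x := Filter.eventually_ge_atTop X₂
  obtain ⟨X, hX⟩ := Filter.eventually_atTop.1
    (e1.and (e2.and (e3.and (e4.and (e5.and e6)))))
  refine ⟨X, fun x hx => ?_⟩
  obtain ⟨a1, a2, a3, a4, a5, a6⟩ := hX x hx
  exact ⟨a5, a6, a1, a2, a3, a4⟩

theorem normal_order (α : ℝ) (h1 : 1 < α) (hα : α * (1 + Real.log 2 - Real.log α) = 1)
    (ε : ℝ) (hε : 0 < ε) : ∃ δ : ℝ, 0 < δ ∧ ∃ X : ℕ, ∀ x : ℕ, X ≤ x →
    ∀ B : Finset ℕ, (∀ n ∈ B, 2 ≤ n ∧ n ≤ x ∧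
      ((∀ m ∈ Ico 1 n, (m.divisors.card : ℝ) + m - n < Real.log n ^ (α * Real.log 2 - ε)) ∨
        ∃ m ∈ Ico 1 n, Real.log n ^ (α * Real.log 2 + ε) < (m.divisors.card : ℝ) + m - n)) →
    (B.card : ℝ) ≤ x * Real.log x ^ (-δ) := by
  classical
  -- numerics for `α`
  obtain ⟨α₀, -, -, huniq, hlo, hhi⟩ := exists_alpha
  rw [← huniq α h1 hα] at hlo hhi
  clear huniq α₀
  have l2a := Real.log_two_gt_d9
  have l2b := Real.log_two_lt_d9
  have hα4 : 4 < α := by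
    by_contra h
    push Not at h
    nlinarith
  have hα0 : 0 < α := by linarith
  have l23 : Real.log 2 < Real.log 3 := Real.log_lt_log (by norm_num) (by norm_num)
  -- the parameters
  set ε' : ℝ := min ε (1 / 2) with hε'def
  have hε'0 : 0 < ε' := lt_min hε (by norm_num)
  have hε'1 : ε' ≤ 1 / 2 := min_le_right _ _
  have hε'2 : ε' ≤ ε := min_le_left _ _
  set t : ℝ := 2 * ε' / (Real.log 2 + Real.log 3) with htdef
  have hs0 : 0 < Real.log 2 + Real.log 3 := by linarith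
  have ht0 : 0 < t := by positivity
  have ht_eq : t * (Real.log 2 + Real.log 3) = 2 * ε' := by
    rw [htdef]; field_simp
  have ht1 : t ≤ 1 := by
    by_contra h
    push Not at h
    nlinarith
  have ht2 : t * Real.log 2 < ε' := by nlinarith
  have ht3 : ε' < t * Real.log 3 := by nlinarith
  set y : ℝ := α - t with hydef
  have hy3 : 3 < y := by rw [hydef]; linarith
  have hy0 : 0 < y := by linarith
  have hly : Real.log 3 ≤ Real.log y := Real.log_le_log (by norm_num) hy3.le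
  set β : ℝ := α * Real.log 2 with hβdef
  have hu2 : β - ε' < y * Real.log 2 := by
    rw [hydef, hβdef]; nlinarith
  have hu1 : y * Real.log y - y + 1 < β - ε' := by
    have hle : Real.log (y / α) ≤ y / α - 1 := Real.log_le_sub_one_of_pos (by positivity)
    rw [Real.log_div hy0.ne' hα0.ne'] at hle
    have hle2 : α * (Real.log y - Real.log α) ≤ y - α := by
      have := mul_le_mul_of_nonneg_left hle hα0.le
      have he : α * (y / α - 1) = y - α := by field_simp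
      rwa [he] at this
    have hty : t * Real.log 3 ≤ t * Real.log y := mul_le_mul_of_nonneg_left hly ht0.le
    have hyl : y * Real.log y = α * Real.log y - t * Real.log y := by rw [hydef]; ring
    have hαe : α * Real.log α = α + α * Real.log 2 - 1 := by linarith
    rw [hyl, hβdef]
    nlinarith
  -- the exponent `s`
  set s : ℝ := Real.log α / Real.log 2 with hsdef
  have hl2 : 0 < Real.log 2 := by linarith
  have hlα : Real.log α - Real.log 2 = (α - 1) / α := by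
    rw [eq_div_iff hα0.ne']; linarith
  have hlα0 : 0 < Real.log α - Real.log 2 := by
    rw [hlα]; exact div_pos (by linarith) hα0
  have hs1 : 1 < s := by
    rw [hsdef, lt_div_iff₀ hl2]; linarith
  have h2s : (2 : ℝ) ^ s = α := by
    rw [Real.rpow_def_of_pos (by norm_num), hsdef, mul_div_cancel₀ _ hl2.ne',
      Real.exp_log hα0]
  have hsβ : ((2 : ℝ) ^ s - 1) / (s - 1) = β := by
    rw [h2s]
    have hs_sub : s - 1 = (α - 1) / α / Real.log 2 := by
      rw [← hlα, hsdef]; field_simp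
    have hα1 : α - 1 ≠ 0 := by linarith
    rw [hs_sub, hβdef]
    field_simp
  obtain ⟨δ₁, hδ₁, X₁, hX₁⟩ := lower_exc y (β - ε') (by linarith) hu1 hu2
  obtain ⟨δ₂, hδ₂, X₂, hX₂⟩ := upper_exc s (ε / 2) hs1 (half_pos hε)
  set δ : ℝ := min δ₁ δ₂ / 2 with hδdef
  have hδ0 : 0 < δ := half_pos (lt_min hδ₁ hδ₂)
  have hδ1 : 2 * δ ≤ δ₁ := by rw [hδdef]; linarith [min_le_left δ₁ δ₂]
  have hδ2 : 2 * δ ≤ δ₂ := by rw [hδdef]; linarith [min_le_right δ₁ δ₂]
  obtain ⟨X, hX⟩ := ev_all β ε δ hε hδ0 X₁ X₂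
  refine ⟨δ, hδ0, X, fun x hx B hB => ?_⟩
  obtain ⟨hx1, hx2, hlx, hE3, hE4, hE5⟩ := hX x hx
  have hxpos : 0 < (x : ℝ) := by
    rcases Nat.eq_zero_or_pos x with h | h
    · subst h; simp at hlx; linarith
    · exact_mod_cast h
  have hx1' : (1 : ℝ) ≤ x := by
    have : 0 < x := by exact_mod_cast hxpos
    exact_mod_cast this
  set Lx : ℝ := Real.log x with hLx
  have hLx0 : 0 < Lx := by linarith
  set W : ℝ := Lx ^ (-δ) with hW
  have hW0 : 0 < W := Real.rpow_pos_of_pos hLx0 _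
  -- large elements
  have hbig : ∀ n ∈ B, ¬ n * n < x → Lx / 2 ≤ Real.log n ∧ Real.log n ≤ Lx := by
    intro n hn hnx
    obtain ⟨hn2, hnx', -⟩ := hB n hn
    have hn0 : (0 : ℝ) < n := by
      have : 0 < n := by omega
      exact_mod_cast this
    constructor
    · have hle : (x : ℝ) ≤ (n : ℝ) * n := by
        have : x ≤ n * n := by omega
        exact_mod_cast this
      have := Real.log_le_log hxpos hle
      rw [Real.log_mul hn0.ne' hn0.ne'] at this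
      rw [hLx]; linarith
    · exact Real.log_le_log hn0 (by exact_mod_cast hnx')
  set P : ℕ → Prop := fun n => ∀ m ∈ Ico 1 n,
    (m.divisors.card : ℝ) + m - n < Real.log n ^ (β - ε) with hP
  set B₁ := B.filter (fun n => n * n < x) with hB₁
  set B₂ := B.filter (fun n => ¬ n * n < x ∧ P n) with hB₂
  set B₃ := B.filter (fun n => ¬ n * n < x ∧ ¬ P n) with hB₃
  have hcov : B ⊆ B₁ ∪ (B₂ ∪ B₃) := by
    intro n hn
    simp only [hB₁, hB₂, hB₃, mem_union, mem_filter]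
    by_cases ha : n * n < x
    · exact Or.inl ⟨hn, ha⟩
    · by_cases hb : P n
      · exact Or.inr (Or.inl ⟨hn, ha, hb⟩)
      · exact Or.inr (Or.inr ⟨hn, ha, hb⟩)
  have hcard : (B.card : ℝ) ≤ B₁.card + (B₂.card + B₃.card) := by
    have h := (card_le_card hcov).trans ((card_union_le _ _).trans
      (Nat.add_le_add_left (card_union_le B₂ B₃) _))
    exact_mod_cast h
  -- the small elements
  have c1 : (B₁.card : ℝ) ≤ 1 / 3 * (x * W) := by
    have hsub : B₁ ⊆ range (Nat.sqrt x + 1) := by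
      intro n hn
      rw [hB₁, mem_filter] at hn
      rw [mem_range, Nat.lt_succ_iff, Nat.le_sqrt]
      exact hn.2.le
    have h1c : (B₁.card : ℝ) ≤ (Nat.sqrt x : ℝ) + 1 := by
      have := card_le_card hsub
      rw [card_range] at this
      exact_mod_cast this
    have h2c : (Nat.sqrt x : ℝ) ≤ √(x : ℝ) := Real.nat_sqrt_le_real_sqrt
    have h3c : (1 : ℝ) ≤ √(x : ℝ) := Real.one_le_sqrt.2 hx1'
    have h4c : √(x : ℝ) * √(x : ℝ) = x := Real.mul_self_sqrt hxpos.le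
    have hWinv : Lx ^ δ * W = 1 := by
      rw [hW, ← Real.rpow_add hLx0, add_neg_cancel, Real.rpow_zero]
    have hE5' : Lx ^ δ ≤ 1 / 6 * √(x : ℝ) := by
      rw [Real.sqrt_eq_rpow]; exact hE5
    have h6 : 1 ≤ 1 / 6 * √(x : ℝ) * W := by
      calc (1 : ℝ) = Lx ^ δ * W := hWinv.symm
        _ ≤ 1 / 6 * √(x : ℝ) * W := mul_le_mul_of_nonneg_right hE5' hW0.le
    have h7 : 2 * √(x : ℝ) ≤ 1 / 3 * (x * W) := by
      have := mul_le_mul_of_nonneg_left h6 (show 0 ≤ 2 * √(x : ℝ) by positivity)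
      calc 2 * √(x : ℝ) = 2 * √(x : ℝ) * 1 := by ring
        _ ≤ 2 * √(x : ℝ) * (1 / 6 * √(x : ℝ) * W) := this
        _ = 1 / 3 * ((√(x : ℝ) * √(x : ℝ)) * W) := by ring
        _ = 1 / 3 * (x * W) := by rw [h4c]
    linarith
  -- comparison of the exponents
  have hcmp : ∀ d : ℝ, 2 * δ ≤ d → (x : ℝ) * Lx ^ (-d) ≤ 1 / 3 * (x * W) := by
    intro d hd
    have h1L : 1 ≤ Lx := by linarith
    have ha : Lx ^ (-d) ≤ Lx ^ (-δ + -δ) :=
      Real.rpow_le_rpow_of_exponent_le h1L (by linarith)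
    rw [Real.rpow_add hLx0] at ha
    have hb : Lx ^ (-δ) * Lx ^ (-δ) ≤ 1 / 3 * Lx ^ (-δ) :=
      mul_le_mul_of_nonneg_right hE4 hW0.le
    have hc : Lx ^ (-d) ≤ 1 / 3 * W := ha.trans hb
    calc (x : ℝ) * Lx ^ (-d) ≤ x * (1 / 3 * W) := mul_le_mul_of_nonneg_left hc hxpos.le
      _ = 1 / 3 * (x * W) := by ring
  -- the lower part
  have c2 : (B₂.card : ℝ) ≤ 1 / 3 * (x * W) := by
    refine (hX₁ x hx1 B₂ ?_).trans (hcmp δ₁ hδ1)
    intro n hn
    rw [hB₂, mem_filter] at hn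
    obtain ⟨hnB, hnx, hPn⟩ := hn
    obtain ⟨hn2, hnx', -⟩ := hB n hnB
    obtain ⟨hb1, hb2⟩ := hbig n hnB hnx
    refine ⟨by omega, hnx', fun m hm => (hPn m hm).le.trans ?_⟩
    have hn1 : 1 ≤ Real.log n := by linarith
    calc Real.log n ^ (β - ε) ≤ Real.log n ^ (β - ε') :=
          Real.rpow_le_rpow_of_exponent_le hn1 (by linarith)
      _ ≤ Lx ^ (β - ε') := Real.rpow_le_rpow (by linarith) hb2 (by linarith)
  -- the upper part
  have c3 : (B₃.card : ℝ) ≤ 1 / 3 * (x * W) := by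
    refine (hX₂ x hx2 B₃ ?_).trans (hcmp δ₂ hδ2)
    intro n hn
    rw [hB₃, mem_filter] at hn
    obtain ⟨hnB, hnx, hPn⟩ := hn
    obtain ⟨hn2, hnx', hor⟩ := hB n hnB
    obtain ⟨hb1, hb2⟩ := hbig n hnB hnx
    obtain ⟨m, hm, hlt⟩ := hor.resolve_left hPn
    refine ⟨by omega, hnx', m, hm, lt_of_le_of_lt ?_ hlt⟩
    rw [hsβ]
    have hβε : 0 ≤ β + ε := by linarith
    have ha : Lx ^ (β + ε / 2) * (2 : ℝ) ^ (β + ε) ≤ Lx ^ (β + ε) := by
      calc Lx ^ (β + ε / 2) * (2 : ℝ) ^ (β + ε) ≤ Lx ^ (β + ε / 2) * Lx ^ (ε / 2) :=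
            mul_le_mul_of_nonneg_left hE3 (Real.rpow_nonneg hLx0.le _)
        _ = Lx ^ (β + ε) := by
            rw [← Real.rpow_add hLx0]; congr 1; ring
    have h2pos : (0 : ℝ) < (2 : ℝ) ^ (β + ε) := Real.rpow_pos_of_pos (by norm_num) _
    calc Lx ^ (β + ε / 2) ≤ Lx ^ (β + ε) / (2 : ℝ) ^ (β + ε) := by
          rw [le_div_iff₀ h2pos]; exact ha
      _ = (Lx / 2) ^ (β + ε) := by
          rw [Real.div_rpow hLx0.le (by norm_num)]
      _ ≤ Real.log n ^ (β + ε) := Real.rpow_le_rpow (by linarith) hb1 hβε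
  linarith

end Pool.Agent.helper7.NO
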